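import Pool.Agent.Helper1K1.HE.Fin4

/-!
# The ideal of a Hom-Ext quiver need not be generated by monomial relations

The representations `P_a`, `P_b`, `P_d`, `M` of the quiver `b → c ← d`, `c → a` of type `D_4`, where
`M` has dimension one at every vertex, form an exceptional collection whose Hom-Ext quiver is a
square; the two paths from `P_a` to `M` are nonzero and linearly dependent.

The definitions `Rep`, `IsExceptional`, `IsExceptionalSequence`, `IsExceptionalCollection`, `rad`,
`radSq`, `HomExtQuiver`, `HomExtQuiver.R` and `HomExtQuiver.IsMonomial` are in
`Pool.Agent.Helper1K1.HE.Defs`. A term `P : HomExtQuiver χ` is a choice of morphisms and extensions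
for the arrows of the Hom-Ext quiver of the family `χ`, `P.R i j` is the space of the linear
combinations of paths from `i` to `j` in the ideal, and `P.IsMonomial` says that this ideal is
generated by a set of paths of length at least two.
-/

set_option autoImplicit false

namespace Pool.Agent.Results.MP_2a1499_al.CommutativeSquare

open CategoryTheory Pool.Agent.Helper1K1.HE

/-- Over every field `k` there are a finite acyclic quiver `Q` and an exceptional collection of
representations of `Q` such that the ideal of relations of its Hom-Ext quiver is not generated by
monomial relations, for every choice of the morphisms and extensions which represent the arrows. -/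
theorem result (k : Type) [Field k] :
    ∃ (Q : Type) (_ : Quiver.{0} Q), Finite Q ∧ (∀ x y : Q, Finite (x ⟶ y)) ∧
      (∀ (x : Q) (p : Quiver.Path x x), p = Quiver.Path.nil) ∧
      ∃ (m : ℕ) (χ : Fin m → Rep k Q), IsExceptionalCollection χ ∧ Nonempty (HomExtQuiver χ) ∧
        ∀ P : HomExtQuiver χ, ¬ P.IsMonomial :=
  ⟨V4, inferInstance, inferInstance, inferInstance, fun _ => acyclic4, 4, chi k,
    chi_collection k, ⟨pres⟩, not_monomial⟩

end Pool.Agent.Results.MP_2a1499_al.CommutativeSquare
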